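import Pool.Agent.N831.GA.Stm

set_option autoImplicit false

namespace Pool.Agent.N776.GA.D1

open Complex Metric Filter Topology Pool.Agent.N831.GA

theorem t (h2 : S_TR2) : S_D1 := by
  refine ⟨60, by norm_num, ?_⟩
  intro F c δ A x hδ hc hF hpos hA hx hxδ
  obtain ⟨hre, P, hP, h1, -, h3⟩ := h2 F c (3 * δ / 4) (by positivity) hc
    (fun z hz => hF z (by
      rw [mem_closedBall] at hz
      rw [mem_ball]; linarith))
    (fun z hz => hpos z (by
      rw [mem_closedBall] at hz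
      rw [mem_ball]; linarith))
  have hA1 := hA (3 * δ / 4 / 2) (by positivity) (by linarith)
  have hA0 : 0 ≤ A := le_trans (by positivity) hA1
  have hn : (F (c + ((3 * δ / 4 / 2 : ℝ) : ℂ))).re ≤ ‖F (c + ((3 * δ / 4 / 2 : ℝ) : ℂ))‖ :=
    Complex.re_le_norm _
  set N : ℝ := ‖F (c + ((3 * δ / 4 / 2 : ℝ) : ℂ))‖ with hN
  have hN0 : 0 ≤ N := norm_nonneg _
  have hPr : P * δ ≤ 20 * A := by
    have : 2 * P ≤ 15 * N := by linarith
    nlinarith
  have nx : ‖c + (x : ℂ) - c‖ = x := by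
    rw [add_sub_cancel_left, Complex.norm_real, Real.norm_eq_abs, abs_of_pos hx]
  have g1 := h1 (c + (x : ℂ)) (by
    rw [mem_ball, dist_eq_norm, nx]; linarith)
  rw [nx] at g1
  set U : ℝ := ‖F (c + (x : ℂ)) - F c‖ with hU
  have hU0 : 0 ≤ U := norm_nonneg _
  have k1 : U * δ ^ 2 ≤ 60 * A * x := by
    have e1 : (δ / 2) ^ 2 ≤ (3 * δ / 4 - x) ^ 2 := by
      apply pow_le_pow_left₀ (by positivity); linarith
    have e2 : U * (δ / 2) ^ 2 ≤ U * (3 * δ / 4 - x) ^ 2 := mul_le_mul_of_nonneg_left e1 hU0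
    have e3 : P * (3 * δ / 4) * x ≤ 15 * A * x := by
      have : P * (3 * δ / 4) ≤ 15 * A := by linarith
      exact mul_le_mul_of_nonneg_right this hx.le
    nlinarith
  refine ⟨k1, ?_, ?_⟩
  · have ny : ‖c + ((3 * δ / 4 / 2 : ℝ) : ℂ) - c‖ = 3 * δ / 4 / 2 := by
      rw [add_sub_cancel_left, Complex.norm_real, Real.norm_eq_abs, abs_of_pos (by positivity)]
    have g2 := h1 (c + ((3 * δ / 4 / 2 : ℝ) : ℂ)) (by
      rw [mem_ball, dist_eq_norm, ny]; linarith)
    rw [ny] at g2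
    set V : ℝ := ‖F (c + ((3 * δ / 4 / 2 : ℝ) : ℂ)) - F c‖ with hV
    have hV0 : 0 ≤ V := norm_nonneg _
    have hVδ : V * δ ≤ 40 * A := by
      have e : V * δ * (9 / 64 * δ) ≤ (P * δ) * (9 / 32 * δ) := by nlinarith
      have e' : V * δ * (9 / 64 * δ) ≤ (40 * A) * (9 / 64 * δ) := by nlinarith
      exact le_of_mul_le_mul_right e' (by positivity)
    have hFc : ‖F c‖ ≤ N + V := by
      have := norm_sub_norm_le (F c) (F (c + ((3 * δ / 4 / 2 : ℝ) : ℂ)))
      rw [norm_sub_rev] at this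
      linarith
    nlinarith
  · have : (F (c + (x : ℂ))).re ≤ U := by
      have e := Complex.re_le_norm (F (c + (x : ℂ)) - F c)
      rw [Complex.sub_re, hre, sub_zero] at e
      exact e
    have : (F (c + (x : ℂ))).re * δ ^ 2 ≤ U * δ ^ 2 := mul_le_mul_of_nonneg_right this (by positivity)
    linarith

end Pool.Agent.N776.GA.D1
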